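import Pool.Agent.MWA.StmtsQ

/-!
# Row FPD of block MWA (MP_23468a_al), period `n`: the systems over `x t x² ≈ x^(n+1) t x²`
-/

set_option autoImplicit false

namespace Pool.Agent.MWA.H81

open Pool.Agent.Helper14_MV Pool.Agent.Helper2_MV Pool.Agent.MVO Pool.Agent.MWL Pool.Agent.MWS

/-- **FPD** -/
theorem fpd (sfq : SfqStmt) (cpn : CpnStmt) (odn : OdnStmt) (rq3 : Rq3Stmt) (rq4 : Rq4Stmt)
    (rq5 : Rq5Stmt) (rq7 : Rq7Stmt) : FpdStmt := by
  intro n β hb hrd h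
  refine sfq n β hb (odn n β hb.pos hb.ap (cpn n β hb) hrd) ?_
  rcases h with h | h | h | h
  · exact rq3 n β hb h
  · exact rq4 n β hb hrd h
  · exact rq5 n β hb h
  · exact rq7 n β hb h

end Pool.Agent.MWA.H81
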