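import Pool.Agent.MWA.StmtsQ

/-!
# Row RQ7 of block MWA (MP_23468a_al), period `n`: the condition `JPn` for the system b7
-/

set_option autoImplicit false

namespace Pool.Agent.MWA.H81

open Pool.Agent.Helper14_MV Pool.Agent.Helper2_MV Pool.Agent.MVO Pool.Agent.MWL Pool.Agent.MWS

theorem a1_of_b7P (hap : HapStmt) (btu : BtuStmt) (btp : BtpStmt) (btr : BtrStmt) {n : ℕ}
    {β : FIC} (hb : BsP n β) (h7 : B7f β) : A1f β := by
  have hf : BMap 2 1 (fun t => if t = 0 then 0 else 1) := by
    refine ⟨fun i j hij _ => ?_, fun i _ => ?_⟩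
    · show (if i = 0 then 0 else 1) ≤ (if j = 0 then 0 else 1)
      split_ifs <;> omega
    · show (if i = 0 then 0 else 1) ≤ 1
      split_ifs <;> omega
  have h1 : Bt β 1 (v2 1 1) (v2 0 3) 1 := by
    refine btu β hb.cl 2 1 (fun t => if t = 0 then 0 else 1) (v3 1 0 1) (v3 0 2 1) (v2 1 1)
      (v2 0 3) 2 hf (by decide) (by decide) ⟨le_refl _, by decide, fun j h1 h2 => by omega⟩
      ⟨le_refl _, by decide, fun j h1 h2 => by omega⟩ h7 ?_ ?_
    · decide
    · decide
  refine (btp β hb.cl hb.r0).2.1 1 (v2 0 2) (v2 1 1) 1 ?_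
  refine btr n β hb 1 (v2 0 2) (v2 0 3) (v2 1 1) 1 (by decide) (by decide)
    ⟨le_refl _, by decide, fun j h1 h2 => by omega⟩
    ⟨le_refl _, by decide, fun j h1 h2 => by omega⟩ ?_ ((btp β hb.cl hb.r0).2.1 1 _ _ 1 h1)
  intro r hr
  rcases Nat.eq_zero_or_pos r with h | h
  · left
    subst h
    rfl
  · right
    have : r = 1 := by omega
    subst this
    exact (hap n β hb.pos hb.ap).1 1 (v2 0 2) 1 (le_refl _) (by decide)

/-- another letter before the last block -/
theorem exists_beforeP {k : ℕ} {b : ℕ → ℕ} {i : ℕ} (hd : 2 ≤ deg k b) (hL : Lst k b i)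
    (hi : b i = 1) : ∃ q < i, 1 ≤ b q := by
  by_contra hcon
  push Not at hcon
  have h0 : ∀ r ∈ Finset.range (k + 1), r ≠ i → b r = 0 := by
    intro r hr hri
    have hr' := Finset.mem_range.mp hr
    rcases lt_or_gt_of_ne hri with h | h
    · have := hcon r h
      omega
    · exact hL.2.2 r h (by omega)
  have h1 : deg k b = b i := by
    unfold deg
    exact Finset.sum_eq_single i h0 fun h => absurd (Finset.mem_range.mpr (by
      have := hL.1
      omega)) h
  omega

theorem deg_ad (n k : ℕ) (a : ℕ → ℕ) (i : ℕ) : deg k a ≤ deg k (ad n a i) :=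
  Finset.sum_le_sum fun _ _ => Nat.le_add_right _ _

theorem lst_ad (n : ℕ) {k : ℕ} {a : ℕ → ℕ} {i j : ℕ} (h : Lst k a i) (hj : j ≤ i) :
    Lst k (ad n a j) i := by
  refine ⟨h.1, ?_, fun r hr hk => ?_⟩
  · have h1 := h.2.1
    show a i + (if i = j then 2 * n else 0) ≠ 0
    omega
  · show a r + (if r = j then 2 * n else 0) = 0
    rw [h.2.2 r hr hk, if_neg (by omega)]

/-- **RQ7** -/
theorem rq7 (hap : HapStmt) (btu : BtuStmt) (use : UseStmt) (btf : BtfStmt) (btp : BtpStmt)
    (btr : BtrStmt) (rdp : RdpStmt) : Rq7Stmt := by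
  intro n β hb hs θ hle _ k a b i j ha hd hLa hLb hji hAj _
  obtain ⟨h7, h8⟩ := hs
  left
  have hn := hb.pos
  have hA1 : A1f β := a1_of_b7P hap btu btp btr hb h7
  by_cases h2 : 2 ≤ a i ∨ 2 ≤ b i
  · exact Bt.mono hle (rdp β hb.cl hb.r0 hA1 k a b i ha hd hLa hLb h2)
  have hai : a i = 1 := by
    have := hLa.2.1
    omega
  have hbi : b i = 1 := by
    have := hLb.2.1
    omega
  have hc : Bt β k (ad n a j) b i → Bt θ k a b i := fun h =>
    (btf θ k a (ad n a j) b b hAj (RR.refl _)).2 i (Bt.mono hle h)
  apply hc
  rcases Nat.lt_or_ge j i with hlt | hge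
  · obtain ⟨q, hq, hbq⟩ := exists_beforeP hd hLb hbi
    rcases Nat.lt_or_ge j q with hjq | hqj
    · refine (use β hb.cl).2.1 2 0 1 0 1 1 k j q i (ad n a j) b (by decide) (by decide)
        (by decide) (by decide) h8 hjq.le hq.le hLa.1 ?_ ?_
      · intro t _
        show (if t = j then 2 else 0) + (if t = q then 0 else 0) + (if t = i then 1 else 0) ≤
          a t + (if t = j then 2 * n else 0)
        rcases eq_or_ne t i with h | h
        · subst h
          rw [if_neg (by omega : ¬ t = j), if_pos rfl, ite_self]
          omega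
        · rw [if_neg h, ite_self]
          split_ifs <;> omega
      · intro t _
        show (if t = j then 0 else 0) + (if t = q then 1 else 0) + (if t = i then 1 else 0) ≤ b t
        rcases eq_or_ne t i with h | h
        · subst h
          rw [if_neg (by omega : ¬ t = q), if_pos rfl, ite_self]
          omega
        · rw [if_neg h, ite_self]
          rcases eq_or_ne t q with h' | h'
          · subst h'
            rw [if_pos rfl]
            omega
          · rw [if_neg h']
            omega
    · refine (btp β hb.cl hb.r0).2.1 k b (ad n a j) i ?_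
      refine (use β hb.cl).2.1 1 0 1 0 2 1 k q j i b (ad n a j) (by decide) (by decide)
        (by decide) (by decide) h7 hqj hlt.le hLa.1 ?_ ?_
      · intro t _
        show (if t = q then 1 else 0) + (if t = j then 0 else 0) + (if t = i then 1 else 0) ≤ b t
        rcases eq_or_ne t i with h | h
        · subst h
          rw [if_neg (by omega : ¬ t = q), if_pos rfl, ite_self]
          omega
        · rw [if_neg h, ite_self]
          rcases eq_or_ne t q with h' | h'
          · subst h'
            rw [if_pos rfl]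
            omega
          · rw [if_neg h']
            omega
      · intro t _
        show (if t = q then 0 else 0) + (if t = j then 2 else 0) + (if t = i then 1 else 0) ≤
          a t + (if t = j then 2 * n else 0)
        rcases eq_or_ne t i with h | h
        · subst h
          rw [if_neg (by omega : ¬ t = j), if_pos rfl, ite_self]
          omega
        · rw [if_neg h, ite_self]
          split_ifs <;> omega
  · have hij : j = i := le_antisymm hji hge
    subst hij
    refine rdp β hb.cl hb.r0 hA1 k (ad n a j) b j (ha.trans (deg_ad n k a j)) hd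
      (lst_ad n hLa le_rfl) hLb (Or.inl ?_)
    show 2 ≤ a j + (if j = j then 2 * n else 0)
    rw [if_pos rfl]
    omega

end Pool.Agent.MWA.H81
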