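import Pool.Agent.MWA.StmtsB

/-!
# Row FSD of block MWA (MP_23468a_al): the systems over `x t x² ≈ x² t x²`
-/

set_option autoImplicit false

namespace Pool.Agent.MWA.H81

open Pool.Agent.Helper14_MV Pool.Agent.Helper2_MV Pool.Agent.MVO Pool.Agent.MWL Pool.Agent.MWS

/-- **FSD** -/
theorem fsd (sfm : SfmStmt) (ica : IcaStmt) (old : OldStmt) (cne : CneStmt) (cno : CnoStmt)
    (rb3 : Rb3Stmt) (rb4 : Rb4Stmt) (rb5 : Rb5Stmt) (rb7 : Rb7Stmt) : FsdStmt := by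
  intro β hb hrd h
  have hoi : OLI β := old β (ica β hb) hrd
  obtain ⟨c1, -, -, c4, c5, c6, c7, c8, c9⟩ := cne β hb.cl
  obtain ⟨d1, -, -, d4, d5⟩ := cno β hb.ap
  refine sfm β hb hoi ?_
  rcases h with h | h | h | h
  · exact rb3 β hb (c1 h.a) (c4 h.p) (d4 h.j) (c5 h.q)
  · exact rb4 β hb hrd (c1 h.a) (c4 h.p) (d5 h.j).1 (d5 h.j).2 (c6 h.c)
  · exact rb5 β hb (d1 h.g) (d5 h.j).1 (d5 h.j).2 (c4 h.p) (c7 h.c)
  · exact rb7 β hb (c8 h.a) (c9 h.b)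

end Pool.Agent.MWA.H81
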